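import Mathlib
import Pool.Agent.H21.MaxMinDef

namespace Pool.Agent.Results.MP_6cdbe4_gt.NotUnique

open Pool.Agent.H21.MaxMin Classical

variable {n : ℕ} {X Y Z : Type}

theorem mk_eq {x y : Fin n → X} : SP.mk x = SP.mk y ↔ ∃ σ : Equiv.Perm (Fin n), y = x ∘ σ := by
  have : Equivalence fun x y : Fin n → X => ∃ σ : Equiv.Perm (Fin n), y = x ∘ σ :=
    ⟨fun x => ⟨1, rfl⟩, fun {x y} ⟨σ, h⟩ => ⟨σ⁻¹, by ext i; simp [h]⟩,
      fun {x y z} ⟨σ, h⟩ ⟨τ, h'⟩ => ⟨σ * τ, by ext i; simp [h, h']⟩⟩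
  exact Quot.eq.trans this.eqvGen_iff

noncomputable def W (e : EReal ≃o EReal) (μ : Fin n → J Y) (t : SP n Y) : EReal :=
  ⨆ y, ⨆ (_ : SP.mk y = t), ⨅ i, e ((μ i).w (y i))

theorem W_perm (e : EReal ≃o EReal) (μ : Fin n → J Y) (σ : Equiv.Perm (Fin n)) (t : SP n Y) :
    W e (μ ∘ σ) t = W e μ t := by
  have key : ∀ (μ : Fin n → J Y) (σ : Equiv.Perm (Fin n)), W e μ t ≤ W e (μ ∘ σ) t := by
    intro μ σ
    refine iSup₂_le fun y hy => le_iSup₂_of_le (y ∘ σ) ((mk_eq.mpr ⟨σ, rfl⟩).symm.trans hy) ?_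
    exact le_iInf fun i => iInf_le _ (σ i)
  refine le_antisymm ((key _ σ⁻¹).trans_eq ?_) (key _ _)
  congr 1; ext1 i; simp

noncomputable def P (e : EReal ≃o EReal) (μ : Fin n → J Y) : J (SP n Y) where
  w := W e μ
  fin := by
    refine ((Set.Finite.pi' fun i => (μ i).fin).image SP.mk).subset fun t ht => ?_
    by_contra hc
    refine ht (iSup_eq_bot.mpr fun y => iSup_eq_bot.mpr fun hy => ?_)
    have : ¬ ∀ i, (μ i).w (y i) ≠ ⊥ := fun h => hc ⟨y, h, hy⟩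
    push Not at this
    obtain ⟨i, hi⟩ := this
    exact le_bot_iff.mp ((iInf_le _ i).trans (by rw [hi, e.map_bot]))
  top := by
    choose y hy using fun i => (μ i).top
    refine ⟨SP.mk y, top_le_iff.mp (le_iSup₂_of_le y rfl ?_)⟩
    simp [hy]

noncomputable def Pm (e : EReal ≃o EReal) (f : X → J Y) (s : SP n X) : J (SP n Y) :=
  P e (f ∘ Quot.out s)

theorem Pm_w (e : EReal ≃o EReal) (f : X → J Y) (x : Fin n → X) (t : SP n Y) :
    (Pm e f (SP.mk x)).w t = W e (f ∘ x) t := by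
  obtain ⟨σ, h⟩ := mk_eq.mp (Quot.out_eq (SP.mk x)).symm
  have : f ∘ Quot.out (SP.mk x) = (f ∘ x) ∘ σ := by rw [h]; rfl
  rw [← W_perm e _ σ, ← this]; rfl

def Agree (d : X → X → ℝ) (r : ℝ) (μ ν : J X) : Prop :=
  ∀ φ : X → ℝ, (∀ x y, d x y < r → φ y = φ x) → μ.ev φ = ν.ev φ

theorem ev_const (μ : J X) (φ : X → ℝ) (c : ℝ) (h : ∀ x, μ.w x ≠ ⊥ → φ x = c) : μ.ev φ = c := by
  apply le_antisymm
  · refine iSup_le fun x => ?_
    by_cases hx : μ.w x = ⊥
    · simp [hx]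
    · rw [h x hx]; exact min_le_right _ _
  · obtain ⟨x, hx⟩ := μ.top
    refine le_iSup_of_le x ?_
    rw [h x (by simp [hx]), hx]; simp

theorem agree_of_lt [MetricSpace Y] {μ ν : J Y} {r : ℝ} (h : dhat dist μ ν < r) :
    Agree dist r μ ν := by
  obtain ⟨x, hx⟩ := μ.top
  obtain ⟨R, hR, hsub⟩ := (μ.fin.union ν.fin).isBounded.subset_ball_lt 0 x
  have hne : (R ∈ {r | 0 < r ∧ ∀ φ : Y → ℝ, (∀ x y, dist x y < r → φ y = φ x) →
      μ.ev φ = ν.ev φ}) := by
    refine ⟨hR, fun φ hφ => ?_⟩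
    rw [ev_const μ φ (φ x) fun y hy => hφ _ _ (Metric.mem_ball'.mp (hsub (Or.inl hy))),
      ev_const ν φ (φ x) fun y hy => hφ _ _ (Metric.mem_ball'.mp (hsub (Or.inr hy)))]
  obtain ⟨r', hr', hlt⟩ := exists_lt_of_csInf_lt ⟨R, hne⟩ h
  exact fun φ hφ => hr'.2 φ fun x y hxy => hφ x y (hxy.trans hlt)

theorem near [MetricSpace Y] [IsUltrametricDist Y] {μ ν : J Y} {r : ℝ} (hr : 0 < r)
    (h : Agree dist r μ ν) (y : Y) (b : EReal) (hb : b < μ.w y) :
    ∃ y', dist y y' < r ∧ b < ν.w y' := by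
  obtain ⟨c, hc1, hc2⟩ := EReal.lt_iff_exists_real_btwn.mp hb
  have e := h (fun z => if dist y z < r then c + 1 else c) (by
    intro a b hab
    have h1 := IsUltrametricDist.dist_triangle_max y a b
    have h2 := IsUltrametricDist.dist_triangle_max y b a
    rw [dist_comm b a] at h2
    have : dist y b < r ↔ dist y a < r :=
      ⟨fun h => h2.trans_lt (max_lt h hab), fun h => h1.trans_lt (max_lt h hab)⟩
    simp only [this])
  have : (c : EReal) < μ.ev fun z => if dist y z < r then c + 1 else c := by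
    refine lt_iSup_iff.mpr ⟨y, lt_min hc2 ?_⟩
    simp only [dist_self, hr, if_true]
    exact_mod_cast lt_add_one c
  rw [e] at this
  obtain ⟨y', hy'⟩ := lt_iSup_iff.mp this
  rw [lt_min_iff] at hy'
  refine ⟨y', ?_, hc1.trans hy'.1⟩
  by_contra hc
  simp [hc] at hy'

theorem dSP_le [MetricSpace Y] (y y' : Fin n → Y) :
    dSP n dist (SP.mk y) (SP.mk y') ≤ ⨆ i, dist (y i) (y' i) :=
  csInf_le ⟨0, by rintro _ ⟨a, b, -, -, rfl⟩; exact Real.iSup_nonneg fun _ => dist_nonneg⟩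
    ⟨y, y', rfl, rfl, rfl⟩

theorem ev_le [NeZero n] [MetricSpace Y] [IsUltrametricDist Y] (e : EReal ≃o EReal)
    {μ ν : Fin n → J Y} {r : ℝ} (hr : 0 < r) (h : ∀ i, Agree dist r (μ i) (ν i))
    (ψ : SP n Y → ℝ) (hψ : ∀ s t, dSP n dist s t < r → ψ t = ψ s) :
    ⨆ t, min (W e μ t) (ψ t) ≤ ⨆ t, min (W e ν t) (ψ t) := by
  refine le_of_forall_lt fun b hb => ?_
  obtain ⟨t, ht⟩ := lt_iSup_iff.mp hb
  rw [lt_min_iff] at ht
  obtain ⟨y, hy0⟩ := lt_iSup_iff.mp ht.1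
  obtain ⟨rfl, hy⟩ := lt_iSup_iff.mp hy0
  choose y' h1 h2 using fun i => near hr (h i) (y i) (e.symm b)
    (e.symm_apply_lt.mpr (hy.trans_le (iInf_le _ i)))
  refine lt_iSup_iff.mpr ⟨SP.mk y', lt_min ?_ ?_⟩
  · obtain ⟨i, hi⟩ := Finite.exists_min fun i => e ((ν i).w (y' i))
    exact (e.symm_apply_lt.mp (h2 i)).trans_le (le_iSup₂_of_le y' rfl (le_iInf hi))
  · obtain ⟨i, hi⟩ := Finite.exists_max fun i => dist (y i) (y' i)
    rw [hψ _ _ ((dSP_le y y').trans_lt ((ciSup_le hi).trans_lt (h1 i)))]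
    exact ht.2

noncomputable def ext (n : ℕ) [NeZero n] (e : EReal ≃o EReal) : Ext n where
  map f := ⟨Pm e f.1, fun s s' => by
    refine le_csInf ⟨_, Quot.out s, Quot.out s', Quot.out_eq s, Quot.out_eq s', rfl⟩ ?_
    rintro _ ⟨x, x', rfl, rfl, rfl⟩
    refine le_of_forall_gt_imp_ge_of_dense fun r hr => ?_
    have hr0 : 0 < r := (Real.iSup_nonneg fun _ => dist_nonneg).trans_lt hr
    have ha : ∀ i, Agree dist r (f.1 (x i)) (f.1 (x' i)) := fun i =>
      agree_of_lt ((f.2 _ _).trans_lt ((le_ciSup (f := fun i => dist (x i) (x' i))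
        (Set.finite_range _).bddAbove i).trans_lt hr))
    refine csInf_le ⟨0, fun _ h => h.1.le⟩ ⟨hr0, fun ψ hψ => ?_⟩
    simp only [J.ev, Pm_w]
    exact le_antisymm (ev_le e hr0 ha ψ hψ)
      (ev_le e hr0 (fun i φ hφ => (ha i φ hφ).symm) ψ hψ)⟩
  comp f g h H s t := by
    induction s using Quot.ind with | _ x => ?_
    change (Pm e h.1 (SP.mk x)).w t =
      ⨆ u, min ((Pm e f.1 (SP.mk x)).w u) ((Pm e g.1 u).w t)
    simp only [Pm_w]
    have e1 : W e (h.1 ∘ x) t = ⨆ z, ⨆ (_ : SP.mk z = t), ⨆ y : Fin n → _,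
        ⨅ i, min (e ((f.1 (x i)).w (y i))) (e ((g.1 (y i)).w (z i))) := by
      simp only [W, Function.comp, H _ _, e.map_iSup, e.monotone.map_min, iInf_iSup_eq]
    rw [e1]
    apply le_antisymm
    · refine iSup₂_le fun z hz => iSup_le fun y => le_iSup_of_le (SP.mk y) (le_min ?_ ?_)
      · exact le_iSup₂_of_le y rfl (iInf_mono fun i => min_le_left _ _)
      · rw [Pm_w]
        exact le_iSup₂_of_le z hz (iInf_mono fun i => min_le_right _ _)
    · refine iSup_le fun u => ?_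
      rw [W, iSup_inf_eq]
      refine iSup_le fun y => ?_
      rw [iSup_inf_eq]
      refine iSup_le ?_
      rintro rfl
      rw [Pm_w, W, inf_iSup_eq]
      refine iSup_le fun z => ?_
      rw [inf_iSup_eq]
      refine iSup_le fun hz => le_iSup₂_of_le z hz (le_iSup_of_le y (le_iInf fun i => ?_))
      exact min_le_min (iInf_le _ i) (iInf_le _ i)
  dirac u f H s t := by
    induction s using Quot.ind with | _ x => ?_
    change (Pm e f.1 (SP.mk x)).w t = if t = SP.mk (u ∘ x) then ⊤ else ⊥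
    rw [Pm_w, W]
    split_ifs with ht
    · refine top_le_iff.mp (le_iSup₂_of_le (u ∘ x) ht.symm ?_)
      simp [H _ _]
    · refine iSup_eq_bot.mpr fun y => iSup_eq_bot.mpr fun hy => ?_
      have : y ≠ u ∘ x := fun h => ht (by rw [← hy, h])
      obtain ⟨i, hi⟩ := Function.ne_iff.mp this
      refine le_bot_iff.mp ((iInf_le _ i).trans ?_)
      have hi : ¬ y i = u (x i) := hi
      simp [H _ _, hi]

noncomputable def shift : EReal ≃o EReal where
  toFun a := a + (1 : ℝ)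
  invFun a := a - (1 : ℝ)
  left_inv _ := EReal.add_sub_cancel_right
  right_inv _ := EReal.sub_add_cancel
  map_rel_iff' := (EReal.addLECancellable_coe 1).add_le_add_iff_right

noncomputable def mu0 : J ℚ_[2] where
  w x := if x = 0 then ⊤ else if x = 1 then 0 else ⊥
  fin := (Set.toFinite {0, 1}).subset fun x hx => by
    by_contra hc; simp at hc; simp [hc] at hx
  top := ⟨0, by simp⟩

noncomputable def f0 : KHom (dist : ℚ_[2] → ℚ_[2] → ℝ) (dist : ℚ_[2] → ℚ_[2] → ℝ) :=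
  ⟨fun _ => mu0, fun x x' => by
    refine le_trans (le_of_forall_gt_imp_ge_of_dense fun r hr => ?_) dist_nonneg
    exact csInf_le ⟨0, fun _ h => h.1.le⟩ ⟨hr, fun _ _ => rfl⟩⟩

theorem val (n : ℕ) [NeZero n] (e : EReal ≃o EReal) :
    (((ext n e).map f0).1 (SP.mk fun _ => 0)).w (SP.mk fun _ => 1) = e 0 := by
  change (Pm e f0.1 (SP.mk fun _ => 0)).w _ = _
  rw [Pm_w, W]
  have : ∀ y : Fin n → ℚ_[2], (SP.mk y = SP.mk fun _ => 1) ↔ y = fun _ => 1 := by
    intro y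
    refine ⟨fun h => ?_, fun h => by rw [h]⟩
    obtain ⟨σ, h⟩ := mk_eq.mp h.symm
    exact h
  simp [this, f0, mu0]

theorem result (n : ℕ) (hn : 1 ≤ n) : ∃ F₁ F₂ : Ext n, F₁ ≠ F₂ := by
  haveI : NeZero n := ⟨by omega⟩
  refine ⟨ext n (OrderIso.refl _), ext n shift, fun h => ?_⟩
  have h1 := val n (OrderIso.refl _)
  rw [h, val] at h1
  simp [shift] at h1

end Pool.Agent.Results.MP_6cdbe4_gt.NotUnique
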